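import Mathlib

/-!
# The numbers of level three (fks_k3_helper76.md): definitions

Everything is in units of `c = 7/3`: `H = c * Hh`, `A1 = c * Acc1`, `A2 = c * Acc2`.
-/

set_option autoImplicit false

namespace H76.FKS

/-- Largest value of `1 + κ` over the 3-edges at a vertex with mass `b` of smaller edges. -/
noncomputable def Rb (b : ℝ) : ℝ := 1 / (1 - 23 / 500 - min (7 / 25 * b) (23 / 1000))

/-- Rate of the requests at the own leaf. -/
noncomputable def om (x : ℝ) : ℝ := 23 / 100 * max 0 (1 - x / (9 / 100))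

/-- Rate of the requests at both leaves; `t` is the 3-mass of the foreign leaf. -/
noncomputable def ps (t : ℝ) : ℝ := max 0 (3 / 50 - t / 4)

/-- Lower bound for `c * Hh e`, without the inflation `K` of the star. -/
noncomputable def hlow (X x mu mw bu bv bw T : ℝ) : ℝ :=
  28 / 117 + 518 / 351 * (bu + bv + bw) + 167 / 351 * X + 1036 / 351 * x +
    (518 / 351 - Rb bu) * mu + (518 / 351 - Rb bw) * mw + 128 / 351 * T

/-- Lower bound for `c` times the acceptance of a request at the own leaf. -/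
noncomputable def alow (X x mu mw bu bv bw T K : ℝ) : ℝ :=
  7 / 3 - (X + K) - Rb bu * mu - Rb bw * mw - 259 / 351 * (1 - X - bv) -
    259 / 351 * (1 - x - mw - bw) - 5 / 9 * T

/-- Lower bound for `c` times the acceptance of a request at both leaves. -/
noncomputable def alow2 (X mu mw bu bv bw T K : ℝ) : ℝ :=
  7 / 3 - (X + K) - Rb bu * mu - Rb bw * mw - 259 / 351 * (1 - X - bv) - 5 / 9 * T

/-- The value `a = (1 + δ) X`. -/
noncomputable def av (X : ℝ) : ℝ := (1 + 19 / 2000) * X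

/-- The numerator of the thinning. -/
noncomputable def num (X κ K H : ℝ) : ℝ :=
  (1 + κ) * av X - (1 + 2 * (K / X - κ)) * H + κ * (1 + 2) * (7 / 40 * X)

/-- The range of the parameters. -/
structure Dom (X x mu mw bu bv bw T κ K : ℝ) : Prop where
  x0 : 0 ≤ x
  xX : x ≤ X
  X0 : 0 < X
  mu0 : 0 ≤ mu
  mw0 : 0 ≤ mw
  bu0 : 0 ≤ bu
  bv0 : 0 ≤ bv
  bw0 : 0 ≤ bw
  Xv : X + bv ≤ 1
  Xu : x + mu + bu ≤ 1
  Xw : x + mw + bw ≤ 1
  T0 : 0 ≤ T
  κ0 : 0 ≤ κ
  κ1 : κ ≤ 1 / (1 - (min (7 / 25 * bu) (23 / 1000) + min (7 / 25 * bv) (23 / 1000) +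
    min (7 / 25 * bw) (23 / 1000))) - 1
  K0 : 0 ≤ K
  K1 : K ≤ X * (Rb bv - 1)

end H76.FKS
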