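import Mathlib
import Pool.Agent.H76.FKS.ThreeDefs

/-!
# The numbers of level three: polynomial inequalities
-/

set_option autoImplicit false
set_option linter.unusedVariables false

namespace H76.FKS

theorem min_eq' (b : ℝ) : min (7 / 25 * b) (23 / 1000) = 7 / 25 * min b (23 / 280) := by
  rcases le_total b (23 / 280) with h | h
  · rw [min_eq_left h, min_eq_left (by linarith)]
  · rw [min_eq_right h, min_eq_right (by linarith)]; norm_num

theorem Rb_eq (b : ℝ) : Rb b = 1 / (477 / 500 - 7 / 25 * min b (23 / 280)) := by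
  unfold Rb
  rw [min_eq']
  norm_num

theorem Rb_one_le {b : ℝ} (hb : 0 ≤ b) : 1 ≤ Rb b := by
  rw [Rb_eq]
  have h1 : 0 ≤ min b (23 / 280) := le_min hb (by norm_num)
  have h2 : min b (23 / 280) ≤ 23 / 280 := min_le_right _ _
  rw [le_div_iff₀ (by linarith)]
  linarith

theorem Rb_le {b : ℝ} (hb : 0 ≤ b) : Rb b ≤ 368 / 351 + 110 / 351 * min b (23 / 280) := by
  rw [Rb_eq]
  have h1 : 0 ≤ min b (23 / 280) := le_min hb (by norm_num)
  have h2 : min b (23 / 280) ≤ 23 / 280 := min_le_right _ _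
  set t := min b (23 / 280)
  rw [div_le_iff₀ (by linarith)]
  nlinarith [mul_nonneg h1 (sub_nonneg.2 h2)]

theorem kap_le {s κ : ℝ} (h0 : 0 ≤ s) (h1 : s ≤ 69 / 1000) (hκ : κ ≤ 1 / (1 - s) - 1) :
    κ ≤ 1000 / 931 * s := by
  refine hκ.trans ?_
  rw [sub_le_iff_le_add, div_le_iff₀ (by linarith)]
  nlinarith [mul_nonneg h0 (sub_nonneg.2 h1)]

/-- The region. -/
theorem region {x mu mw bu bv bw T κ k H : ℝ} (hx : 0 ≤ x) (hmu : 0 ≤ mu) (hmw : 0 ≤ mw)
    (hmu1 : mu ≤ 1) (hmw1 : mw ≤ 1) (hbu : 0 ≤ bu) (hbv : 0 ≤ bv) (hbw : 0 ≤ bw)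
    (hB : bu + bv + bw ≤ 69 / 280) (hT : 0 ≤ T) (hκ0 : 0 ≤ κ)
    (hκ : κ ≤ 280 / 931 * (bu + bv + bw)) (hk : 0 ≤ k) (hk1 : k ≤ 17 / 351 + 110 / 351 * bv)
    (hH : H = 251 / 351 - k + 1036 / 351 * x + 518 / 351 * (bu + bv + bw) +
      (150 / 351 - 110 / 351 * bu) * mu + (150 / 351 - 110 / 351 * bw) * mw + 128 / 351 * T)
    (hn : 0 < (1 + κ) * (2019 / 2000) - (1 + 2 * (k - κ)) * H + 21 / 40 * κ) :
    251 / 351 + 1036 / 351 * x + 150 / 351 * (mu + mw) + 128 / 351 * T ≤ 209 / 200 := by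
  by_contra hcon
  push Not at hcon
  set B := bu + bv + bw with hBdef
  have hB0 : 0 ≤ B := by positivity
  -- H ≥ 209/200 - k + 408/351 B + (slack)
  have h1 : 209 / 200 - k + 408 / 351 * B ≤ H + 110 / 351 * 0 - 110 / 351 * bv * 0 := by
    have h2 : bu * mu ≤ bu := by nlinarith
    have h3 : bw * mw ≤ bw := by nlinarith
    rw [hH]
    nlinarith
  have h1' : 209 / 200 - k + 408 / 351 * B ≤ H := by linarith
  have hκ1 : κ ≤ 69 / 931 := by linarith
  have hk2 : k ≤ 17 / 351 + 110 / 351 * (69 / 280) := by nlinarith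
  have h4 : 0 ≤ 1 + 2 * (k - κ) := by linarith
  have h5 := mul_le_mul_of_nonneg_left h1' h4
  nlinarith [mul_nonneg hk hB0, mul_nonneg hκ0 hB0, mul_nonneg hk hκ0, mul_nonneg hk hk, mul_nonneg hk (sub_nonneg.2 hk2), mul_nonneg (sub_nonneg.2 hκ) hB0, mul_nonneg hB0 (sub_nonneg.2 hB)]

/-- mu = 0, k = 0 -/
theorem base_a0 {x w : ℝ} (hx : 0 ≤ x) (hx1 : x ≤ 9 / 100) (hw : 0 ≤ w)
    (hreg : 251 / 351 + 1036 / 351 * x + 150 / 351 * w ≤ 209 / 200) :
    2019 / 2000 + 3 / 500 + w / 100 ≤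
      (23 / 100 * (1 - x / (9 / 100)) * (209 / 351 + 259 / 351 * (x + w) - 368 / 351 * w) +
        (3 / 50 - (x + w) / 4) * (259 / 351 * (1 - x - w))) *
        (2019 / 2000 + (251 / 351 + 1036 / 351 * x + 150 / 351 * w)) +
      (251 / 351 + 1036 / 351 * x + 150 / 351 * w) := by
  nlinarith [mul_nonneg hx hw, mul_nonneg hx (sub_nonneg.2 hx1), mul_nonneg hw (sub_nonneg.2 hreg), mul_nonneg hx (sub_nonneg.2 hreg), mul_nonneg (mul_nonneg hx hw) (sub_nonneg.2 hreg), mul_nonneg (mul_nonneg hx hx) (sub_nonneg.2 hx1), mul_nonneg (mul_nonneg hw hw) hx, mul_nonneg (mul_nonneg hw hw) (sub_nonneg.2 hx1), sq_nonneg (w - 1/10), sq_nonneg (x), sq_nonneg w, mul_nonneg hw (sq_nonneg (w - 1/5))]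

/-- mu = 0, k = 17/351 -/
theorem base_a1 {x w : ℝ} (hx : 0 ≤ x) (hx1 : x ≤ 9 / 100) (hw : 0 ≤ w)
    (hreg : 251 / 351 + 1036 / 351 * x + 150 / 351 * w ≤ 209 / 200) :
    2019 / 2000 + 3 / 500 + w / 100 ≤
      (23 / 100 * (1 - x / (9 / 100)) * (209 / 351 + 259 / 351 * (x + w) - 17 / 351 - 368 / 351 * w) +
        (3 / 50 - (x + w) / 4) * (259 / 351 * (1 - x - w))) *
        (2019 / 2000 + (251 / 351 + 1036 / 351 * x + 150 / 351 * w - 17 / 351)) +
      (1 + 2 * (17 / 351)) * (251 / 351 + 1036 / 351 * x + 150 / 351 * w - 17 / 351) := by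
  nlinarith [mul_nonneg hx hw, mul_nonneg hx (sub_nonneg.2 hx1), mul_nonneg hw (sub_nonneg.2 hreg), mul_nonneg hx (sub_nonneg.2 hreg), mul_nonneg (mul_nonneg hx hw) (sub_nonneg.2 hreg), mul_nonneg (mul_nonneg hx hx) (sub_nonneg.2 hx1), mul_nonneg (mul_nonneg hw hw) hx, mul_nonneg (mul_nonneg hw hw) (sub_nonneg.2 hx1), sq_nonneg (w - 1/10), sq_nonneg (x), sq_nonneg w, mul_nonneg hw (sq_nonneg (w - 1/5))]

/-- h = 209/200, k = 0; `s = mu + mw`. -/
theorem base_b0 {x w s : ℝ} (hx : 0 ≤ x) (hx1 : x ≤ 9 / 100) (hw : 0 ≤ w) (hws : w ≤ s)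
    (hreg : 251 / 351 + 1036 / 351 * x + 150 / 351 * s = 209 / 200) :
    2019 / 2000 + 3 / 500 + s / 100 ≤
      (23 / 100 * (1 - x / (9 / 100)) * (209 / 351 + 259 / 351 * (x + w) - 368 / 351 * s) +
        (3 / 50 - (x + w) / 4) * (259 / 351 * (1 - x - w))) *
        (2019 / 2000 + 209 / 200) + 209 / 200 := by
  have hs : s = (209 / 200 - 251 / 351 - 1036 / 351 * x) * (351 / 150) := by linarith
  subst hs
  nlinarith [mul_nonneg hx hw, mul_nonneg hx (sub_nonneg.2 hx1), mul_nonneg hw (sub_nonneg.2 hws), mul_nonneg hx (sub_nonneg.2 hws), sq_nonneg (w - 16/100), sq_nonneg (x), sq_nonneg w, sq_nonneg (w + x - 16/100)]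

theorem base_b1 {x w s : ℝ} (hx : 0 ≤ x) (hx1 : x ≤ 9 / 100) (hw : 0 ≤ w) (hws : w ≤ s)
    (hreg : 251 / 351 + 1036 / 351 * x + 150 / 351 * s = 209 / 200) :
    2019 / 2000 + 3 / 500 + s / 100 ≤
      (23 / 100 * (1 - x / (9 / 100)) * (209 / 351 + 259 / 351 * (x + w) - 17 / 351 - 368 / 351 * s) +
        (3 / 50 - (x + w) / 4) * (259 / 351 * (1 - x - w))) *
        (2019 / 2000 + (209 / 200 - 17 / 351)) + (1 + 2 * (17 / 351)) * (209 / 200 - 17 / 351) := by
  have hs : s = (209 / 200 - 251 / 351 - 1036 / 351 * x) * (351 / 150) := by linarith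
  subst hs
  nlinarith [mul_nonneg hx hw, mul_nonneg hx (sub_nonneg.2 hx1), mul_nonneg hw (sub_nonneg.2 hws), mul_nonneg hx (sub_nonneg.2 hws), sq_nonneg (w - 16/100), sq_nonneg (x), sq_nonneg w, sq_nonneg (w + x - 16/100)]

/-- The polynomial of the base inequality, `P ≥ 0`. -/
noncomputable def P0 (x u w k : ℝ) : ℝ :=
  (23 / 100 * (1 - x / (9 / 100)) * (209 / 351 + 259 / 351 * (x + w) - k - 368 / 351 * (u + w)) +
    (3 / 50 - (x + w) / 4) * (259 / 351 * (1 - x - w))) *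
    (2019 / 2000 + (251 / 351 + 1036 / 351 * x + 150 / 351 * (u + w) - k)) +
  (1 + 2 * k) * (251 / 351 + 1036 / 351 * x + 150 / 351 * (u + w) - k) -
  (2019 / 2000 + 3 / 500 + (u + w) / 100)

theorem P0_u {x w k L u : ℝ} (hx1 : x ≤ 9 / 100) (hu : 0 ≤ u) (huL : u ≤ L)
    (h0 : 0 ≤ P0 x 0 w k) (hL : 0 ≤ P0 x L w k) : 0 ≤ P0 x u w k := by
  rcases hu.eq_or_lt with h | h
  · rw [← h]; exact h0
  have hL0 : 0 < L := h.trans_le huL
  have key : L * P0 x u w k = (L - u) * P0 x 0 w k + u * P0 x L w k +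
      L * (u * (L - u)) * (23 / 100 * (1 - x / (9 / 100)) * (368 / 351) * (150 / 351)) := by
    unfold P0; ring
  have h1 : 0 ≤ (L - u) * P0 x 0 w k := mul_nonneg (by linarith) h0
  have h2 : 0 ≤ u * P0 x L w k := mul_nonneg hu hL
  have h3 : 0 ≤ L * (u * (L - u)) * (23 / 100 * (1 - x / (9 / 100)) * (368 / 351) * (150 / 351)) := by
    have : 0 ≤ 1 - x / (9 / 100) := by
      rw [sub_nonneg, div_le_one (by norm_num)]; exact hx1
    have : 0 ≤ L - u := by linarith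
    positivity
  have h4 : 0 ≤ L * P0 x u w k := by rw [key]; linarith
  exact nonneg_of_mul_nonneg_right (by linarith [mul_comm L (P0 x u w k)]) hL0

theorem P0_k {x w k K u : ℝ} (hx : 0 ≤ x) (hk : 0 ≤ k) (hkK : k ≤ K)
    (h0 : 0 ≤ P0 x u w 0) (hL : 0 ≤ P0 x u w K) : 0 ≤ P0 x u w k := by
  rcases hk.eq_or_lt with h | h
  · rw [← h]; exact h0
  have hK0 : 0 < K := h.trans_le hkK
  have key : K * P0 x u w k = (K - k) * P0 x u w 0 + k * P0 x u w K +
      K * (k * (K - k)) * (2 - 23 / 100 * (1 - x / (9 / 100))) := by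
    unfold P0; ring
  have h1 : 0 ≤ (K - k) * P0 x u w 0 := mul_nonneg (by linarith) h0
  have h2 : 0 ≤ k * P0 x u w K := mul_nonneg hk hL
  have h3 : 0 ≤ K * (k * (K - k)) * (2 - 23 / 100 * (1 - x / (9 / 100))) := by
    have : 0 ≤ x / (9 / 100) := by positivity
    have : 0 ≤ K - k := by linarith
    have : 0 ≤ 2 - 23 / 100 * (1 - x / (9 / 100)) := by linarith
    positivity
  have h4 : 0 ≤ K * P0 x u w k := by rw [key]; linarith
  exact nonneg_of_mul_nonneg_right (by linarith [mul_comm K (P0 x u w k)]) hK0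

theorem base_II {x u w k : ℝ} (hx : 9 / 100 ≤ x) (hu : 0 ≤ u) (hw : 0 ≤ w) (hk : 0 ≤ k)
    (hk1 : k ≤ 17 / 351)
    (hreg : 251 / 351 + 1036 / 351 * x + 150 / 351 * (u + w) ≤ 209 / 200) :
    2019 / 2000 + 3 / 500 + (u + w) / 100 ≤
      (3 / 50 - (x + w) / 4) * (4 / 3 - k - 368 / 351 * (u + w)) *
        (2019 / 2000 + (251 / 351 + 1036 / 351 * x + 150 / 351 * (u + w) - k)) +
      (1 + 2 * k) * (251 / 351 + 1036 / 351 * x + 150 / 351 * (u + w) - k) := by
  have hx1 : x ≤ 112 / 1000 := by linarith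
  have hs : u + w ≤ 151 / 1000 := by linarith
  have h1 : 1 ≤ 4 / 3 - k - 368 / 351 * (u + w) := by linarith
  have h2 : 19 / 10 ≤ 2019 / 2000 + (251 / 351 + 1036 / 351 * x + 150 / 351 * (u + w) - k) := by
    linarith
  have h2' : 2019 / 2000 + (251 / 351 + 1036 / 351 * x + 150 / 351 * (u + w) - k) ≤ 21 / 10 := by
    linarith
  have h3 : 0 ≤ (3 / 50 + 1 / 5000) - (x + w) / 4 := by linarith
  have h4 : 19 / 10 ≤ (4 / 3 - k - 368 / 351 * (u + w)) *
      (2019 / 2000 + (251 / 351 + 1036 / 351 * x + 150 / 351 * (u + w) - k)) := by nlinarith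
  have h4' : (4 / 3 - k - 368 / 351 * (u + w)) *
      (2019 / 2000 + (251 / 351 + 1036 / 351 * x + 150 / 351 * (u + w) - k)) ≤ 14 / 5 := by nlinarith
  have h5 : 19 / 10 * ((3 / 50 + 1 / 5000) - (x + w) / 4) - 1 / 5000 * (14 / 5) ≤
    (3 / 50 - (x + w) / 4) * ((4 / 3 - k - 368 / 351 * (u + w)) *
        (2019 / 2000 + (251 / 351 + 1036 / 351 * x + 150 / 351 * (u + w) - k))) := by nlinarith
  rw [← mul_assoc] at h5
  have h6 : 251 / 351 + 1036 / 351 * x + 150 / 351 * (u + w) ≤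
    (1 + 2 * k) * (251 / 351 + 1036 / 351 * x + 150 / 351 * (u + w) - k) := by nlinarith
  linarith

noncomputable def F0 (bu bv bw u w : ℝ) : ℝ :=
  (1 - 560 / 931 * (bu + bv + bw)) * (3 / 500 + (u + w) / 100 + 518 / 351 * (bu + bv + bw) -
    110 / 351 * (bv + bu * u + bw * w)) - 280 / 931 * (bu + bv + bw) * (3 * (2019 / 2000) + 21 / 40) -
    2 * (2019 / 2000) * (23 / 100 * (110 / 351) * (bu * u + bw * w) + 28 / 1000 * bw)

theorem conc_aux {L t p p0 pL C : ℝ} (ht : 0 ≤ t) (htL : t ≤ L) (hL : 0 < L) (h0 : 0 ≤ p0)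
    (h1 : 0 ≤ pL) (hC : 0 ≤ C) (key : L * p = (L - t) * p0 + t * pL + L * (t * (L - t)) * C) :
    0 ≤ p := by
  have h2 : 0 ≤ (L - t) * p0 := mul_nonneg (by linarith) h0
  have h3 : 0 ≤ t * pL := mul_nonneg ht h1
  have h4 : 0 ≤ L * (t * (L - t)) * C := by
    have : 0 ≤ L - t := by linarith
    positivity
  have h5 : 0 ≤ L * p := by rw [key]; linarith
  exact nonneg_of_mul_nonneg_right (by linarith [mul_comm L p]) hL

theorem F0_nonneg {bu bv bw u w : ℝ} (hu : 0 ≤ u) (hw : 0 ≤ w) (hs : u + w ≤ 772 / 1000)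
    (h1 : 0 ≤ bu) (h2 : 0 ≤ bv) (h3 : 0 ≤ bw) (h1' : bu ≤ 23 / 280) (h2' : bv ≤ 23 / 280)
    (h3' : bw ≤ 23 / 280) : 0 ≤ F0 bu bv bw u w := by
  have hC1 : 0 ≤ 560 / 931 * (518 / 351 - 110 / 351 * u) := by
    apply mul_nonneg (by norm_num); linarith
  have hC3 : 0 ≤ 560 / 931 * (518 / 351 - 110 / 351 * w) := by
    apply mul_nonneg (by norm_num); linarith
  have step1 : ∀ bv bw, 0 ≤ F0 0 bv bw u w → 0 ≤ F0 (23 / 280) bv bw u w → 0 ≤ F0 bu bv bw u w := by
    intro bv bw ha hb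
    refine conc_aux h1 h1' (by norm_num) ha hb hC1 ?_
    unfold F0; ring
  have step2 : ∀ bu bw, 0 ≤ F0 bu 0 bw u w → 0 ≤ F0 bu (23 / 280) bw u w → 0 ≤ F0 bu bv bw u w := by
    intro bu bw ha hb
    refine conc_aux (C := 560 / 931 * (518 / 351 - 110 / 351)) h2 h2' (by norm_num) ha hb
      (by norm_num) ?_
    unfold F0; ring
  have step3 : ∀ bu bv, 0 ≤ F0 bu bv 0 u w → 0 ≤ F0 bu bv (23 / 280) u w → 0 ≤ F0 bu bv bw u w := by
    intro bu bv ha hb
    refine conc_aux h3 h3' (by norm_num) ha hb hC3 ?_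
    unfold F0; ring
  apply step1 <;> apply step2 <;> apply step3 <;> unfold F0 <;> nlinarith

theorem base_I {x u w k : ℝ} (hx : 0 ≤ x) (hx1 : x ≤ 9 / 100) (hu : 0 ≤ u) (hw : 0 ≤ w)
    (hk : 0 ≤ k) (hk1 : k ≤ 17 / 351)
    (hreg : 251 / 351 + 1036 / 351 * x + 150 / 351 * (u + w) ≤ 209 / 200) :
    0 ≤ P0 x u w k := by
  set L := (209 / 200 - 251 / 351 - 1036 / 351 * x) * (351 / 150) - w with hL
  have huL : u ≤ L := by rw [hL]; linarith
  have hreg' : 251 / 351 + 1036 / 351 * x + 150 / 351 * w ≤ 209 / 200 := by linarith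
  have hregL : 251 / 351 + 1036 / 351 * x + 150 / 351 * (L + w) = 209 / 200 := by rw [hL]; ring
  have hwL : w ≤ L + w := by linarith
  apply P0_k hx hk hk1
  · apply P0_u hx1 hu huL
    · have := base_a0 hx hx1 hw hreg'
      unfold P0
      simp only [zero_add, sub_zero, mul_zero, add_zero, one_mul]
      linarith
    · have := base_b0 hx hx1 hw hwL hregL
      unfold P0
      rw [hregL]
      simp only [sub_zero, mul_zero, add_zero, one_mul]
      linarith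
  · apply P0_u hx1 hu huL
    · have := base_a1 hx hx1 hw hreg'
      unfold P0
      simp only [zero_add]
      linarith
    · have := base_b1 hx hx1 hw hwL hregL
      unfold P0
      rw [hregL]
      linarith

/-- The last step: perturbation by the masses of small and large edges. -/
theorem final_step {u w bu bv bw T κ k k0 H H0 L G Gp : ℝ} (hu : 0 ≤ u) (hw : 0 ≤ w)
    (hs : u + w ≤ 772 / 1000) (h1 : 0 ≤ bu) (h2 : 0 ≤ bv) (h3 : 0 ≤ bw)
    (h1' : bu ≤ 23 / 280) (h2' : bv ≤ 23 / 280) (h3' : bw ≤ 23 / 280) (hT : 0 ≤ T)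
    (hκ0 : 0 ≤ κ) (hκ : κ ≤ 280 / 931 * (bu + bv + bw)) (hk0 : 0 ≤ k0) (hk : k0 ≤ k)
    (hk1 : k - k0 ≤ 110 / 351 * bv) (hH0 : 0 ≤ H0)
    (hH : H = H0 + (518 / 351 * (bu + bv + bw) - (k - k0) - 110 / 351 * (bu * u + bw * w) +
      128 / 351 * T))
    (hL : L = 23 / 100 * (110 / 351 * (bu * u + bw * w) + 5 / 9 * T) + 28 / 1000 * bw)
    (hGp : 0 ≤ Gp) (hG : Gp - L ≤ G)
    (hM : 2019 / 2000 + (3 / 500 + (u + w) / 100) ≤
      Gp * (2019 / 2000 + H0) + (1 + 2 * k0) * H0)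
    (hn : 0 < (1 + κ) * (2019 / 2000) - (1 + 2 * (k - κ)) * H + 21 / 40 * κ) :
    (1 + κ) * (2019 / 2000) - (1 + 2 * (k - κ)) * H + 21 / 40 * κ ≤ G * (2019 / 2000 + H) := by
  set B := bu + bv + bw with hB
  have hB0 : 0 ≤ B := by positivity
  have hB1 : B ≤ 69 / 280 := by rw [hB]; linarith
  set W := bu * u + bw * w with hW
  have hW0 : 0 ≤ W := by positivity
  have hWB : W ≤ bu + bw := by
    have : bu * u ≤ bu * 1 := mul_le_mul_of_nonneg_left (by linarith) h1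
    have : bw * w ≤ bw * 1 := mul_le_mul_of_nonneg_left (by linarith) h3
    rw [hW]; linarith
  set Δ := 518 / 351 * B - (k - k0) - 110 / 351 * W + 128 / 351 * T with hΔ
  have hΔ0 : 0 ≤ Δ := by rw [hΔ]; linarith
  have hκ1 : κ ≤ 69 / 931 := by linarith
  have hH' : 0 ≤ H := by rw [hH]; linarith
  have hL0 : 0 ≤ L := by rw [hL]; positivity
  -- reduce to (Q)
  suffices hQ : κ * (2019 / 2000 + 21 / 40) + 2 * κ * H + L * (2019 / 2000 + H) ≤
      (3 / 500 + (u + w) / 100) + Δ by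
    have e1 : (Gp - L) * (2019 / 2000 + H) ≤ G * (2019 / 2000 + H) :=
      mul_le_mul_of_nonneg_right hG (by linarith)
    have e2 : Gp * (2019 / 2000 + H0) ≤ Gp * (2019 / 2000 + H) :=
      mul_le_mul_of_nonneg_left (by linarith) hGp
    have e3 : (1 + 2 * k0) * H0 + Δ ≤ (1 + 2 * k) * H := by
      have : (1 + 2 * k0) * H ≤ (1 + 2 * k) * H := mul_le_mul_of_nonneg_right (by linarith) hH'
      have : 0 ≤ 2 * k0 * Δ := by positivity
      rw [hH] at *
      nlinarith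
    nlinarith
  -- the bound on H
  have hHb : (1 - 2 * κ) * H ≤ (1 + κ) * (2019 / 2000) + 21 / 40 * κ := by
    have : 0 ≤ 2 * k * H := by
      have : 0 ≤ k := by linarith
      positivity
    nlinarith
  have hq : 0 < 1 - 2 * κ := by linarith
  -- f(κ) ≥ 0
  have hF := F0_nonneg hu hw hs h1 h2 h3 h1' h2' h3'
  unfold F0 at hF
  rw [← hB, ← hW] at hF
  have hf : κ * (3 * (2019 / 2000) + 21 / 40) + 2 * (2019 / 2000) * L ≤
      (1 - 2 * κ) * (3 / 500 + (u + w) / 100 + Δ) := by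
    have g1 : 0 ≤ 3 / 500 + (u + w) / 100 + Δ := by positivity
    have g2 : (1 - 560 / 931 * B) * (3 / 500 + (u + w) / 100 + Δ) ≤
        (1 - 2 * κ) * (3 / 500 + (u + w) / 100 + Δ) :=
      mul_le_mul_of_nonneg_right (by linarith) g1
    have g3 : 3 / 500 + (u + w) / 100 + 518 / 351 * B - 110 / 351 * (bv + W) + 128 / 351 * T ≤
        3 / 500 + (u + w) / 100 + Δ := by rw [hΔ]; linarith
    have g4 := mul_le_mul_of_nonneg_left g3 (by linarith : 0 ≤ 1 - 560 / 931 * B)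
    have g5 : 2 * (2019 / 2000) * (23 / 100 * (5 / 9 * T)) ≤
        (1 - 560 / 931 * B) * (128 / 351 * T) := by nlinarith
    rw [hL]
    rw [show bv + bu * u + bw * w = bv + W by rw [hW]; ring] at hF
    nlinarith
  by_contra hcon
  push Not at hcon
  have h4 := mul_lt_mul_of_pos_left hcon hq
  have h5 : (1 - 2 * κ) * (κ * (2019 / 2000 + 21 / 40) + 2 * κ * H + L * (2019 / 2000 + H)) ≤
      κ * (3 * (2019 / 2000) + 21 / 40) + 2 * (2019 / 2000) * L := by
    have g6 := mul_le_mul_of_nonneg_left hHb hκ0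
    have g7 := mul_le_mul_of_nonneg_left hHb hL0
    have g8 : 0 ≤ L * κ := mul_nonneg hL0 hκ0
    nlinarith
  linarith

/-- Decomposition of the gain, small `x`. -/
theorem gain_I {x u w bu bv bw T k k0 A1 L : ℝ} (hx : 0 ≤ x) (hx1 : x ≤ 9 / 100)
    (hu : 0 ≤ u) (hw : 0 ≤ w) (h1 : 0 ≤ bu) (h2 : 0 ≤ bv) (h3 : 0 ≤ bw)
    (h1' : bu ≤ 23 / 280) (h2' : bv ≤ 23 / 280) (h3' : bw ≤ 23 / 280) (hT : 0 ≤ T)
    (hk0 : 0 ≤ k0) (hk01 : k0 ≤ 17 / 351) (hk : k0 ≤ k) (hk1 : k - k0 ≤ 110 / 351 * bv)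
    (hw1 : x + w + bw ≤ 1)
    (hreg : 251 / 351 + 1036 / 351 * x + 150 / 351 * (u + w) + 128 / 351 * T ≤ 209 / 200)
    (hA1 : A1 = 209 / 351 + 259 / 351 * (bv + x + w + bw) - k - (368 / 351 + 110 / 351 * bu) * u -
      (368 / 351 + 110 / 351 * bw) * w - 5 / 9 * T)
    (hL : L = 23 / 100 * (110 / 351 * (bu * u + bw * w) + 5 / 9 * T) + 28 / 1000 * bw) :
    (23 / 100 * (1 - x / (9 / 100)) * (209 / 351 + 259 / 351 * (x + w) - k0 - 368 / 351 * (u + w)) +
      (3 / 50 - (x + w) / 4) * (259 / 351 * (1 - x - w))) - L ≤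
      ps (x + w) * (A1 + 259 / 351 * (1 - x - w - bw)) +
        max 0 (om x - ps (x + w)) * max 0 A1 := by
  have hom : om x = 23 / 100 * (1 - x / (9 / 100)) := by
    unfold om
    rw [max_eq_right]
    rw [sub_nonneg, div_le_one (by norm_num)]; exact hx1
  set ω := 23 / 100 * (1 - x / (9 / 100)) with hω
  have hω' : ω = 23 / 100 - 23 / 9 * x := by rw [hω]; ring
  have hω0 : 0 ≤ ω := by rw [hω']; linarith
  have hω1 : ω ≤ 23 / 100 := by rw [hω']; linarith
  rw [hom]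
  set ψ := ps (x + w) with hψ
  have hψ0 : 0 ≤ ψ := le_max_left _ _
  have hψ1 : 3 / 50 - (x + w) / 4 ≤ ψ := le_max_right _ _
  have hψ2 : ψ ≤ 3 / 50 - x / 4 := by
    rw [hψ]; unfold ps
    apply max_le <;> linarith
  set W := bu * u + bw * w with hW
  have hW0 : 0 ≤ W := by positivity
  set B1 := 259 / 351 * (1 - x - w - bw) with hB1
  have hB10 : 0 ≤ B1 := by rw [hB1]; apply mul_nonneg (by norm_num); linarith
  set A10 := 209 / 351 + 259 / 351 * (x + w) - k0 - 368 / 351 * (u + w) with hA10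
  have hA1' : A10 + 259 / 351 * bw - 110 / 351 * W - 5 / 9 * T ≤ A1 := by
    rw [hA1, hA10, hW]; linarith
  -- either A1 ≥ 0 or ω ≥ ψ
  have hcase : 0 ≤ A1 ∨ ψ ≤ ω := by
    by_cases hx7 : x ≤ 7 / 100
    · right; rw [hω']; linarith
    · left
      push Not at hx7
      have e1 : W ≤ 23 / 280 * (u + w) := by
        rw [hW]
        have := mul_le_mul_of_nonneg_right h1' hu
        have := mul_le_mul_of_nonneg_right h3' hw
        linarith
      refine le_trans ?_ hA1'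
      rw [hA10]
      linarith
  have hG : ω * A1 + ψ * B1 ≤ ψ * (A1 + B1) + max 0 (ω - ψ) * max 0 A1 := by
    rcases le_total 0 A1 with hA | hA
    · rw [max_eq_right hA]
      have : (ω - ψ) * A1 ≤ max 0 (ω - ψ) * A1 := mul_le_mul_of_nonneg_right (le_max_right _ _) hA
      linarith
    · rw [max_eq_left hA, mul_zero, add_zero]
      have hψω : ψ ≤ ω := by
        rcases hcase with h | h
        · have : A1 = 0 := le_antisymm hA h
          rw [this] at hA1'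
          by_cases hx7 : x ≤ 7 / 100
          · rw [hω']; linarith
          · exfalso
            push Not at hx7
            have e1 : W ≤ 23 / 280 * (u + w) := by
              rw [hW]
              have := mul_le_mul_of_nonneg_right h1' hu
              have := mul_le_mul_of_nonneg_right h3' hw
              linarith
            rw [hA10] at hA1'
            linarith
        · exact h
      have : ω * A1 ≤ ψ * A1 := mul_le_mul_of_nonpos_right hψω hA
      linarith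
  refine le_trans ?_ hG
  have e1 : ω * (A10 + 259 / 351 * bw - 110 / 351 * W - 5 / 9 * T) ≤ ω * A1 :=
    mul_le_mul_of_nonneg_left hA1' hω0
  have e2 : (3 / 50 - (x + w) / 4) * (259 / 351 * (1 - x - w)) ≤ ψ * (259 / 351 * (1 - x - w)) := by
    apply mul_le_mul_of_nonneg_right hψ1
    apply mul_nonneg (by norm_num); linarith
  have e3 : ψ * B1 = ψ * (259 / 351 * (1 - x - w)) - ψ * (259 / 351 * bw) := by rw [hB1]; ring
  have e4 : (ψ - ω) * (259 / 351 * bw) ≤ 28 / 1000 * bw := by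
    have : ψ - ω ≤ 3 / 80 := by rw [hω']; linarith
    have := mul_le_mul_of_nonneg_right this (by positivity : 0 ≤ 259 / 351 * bw)
    linarith
  have e5 : ω * (110 / 351 * W + 5 / 9 * T) ≤ 23 / 100 * (110 / 351 * W + 5 / 9 * T) :=
    mul_le_mul_of_nonneg_right hω1 (by positivity)
  rw [hL, e3]
  have e6 : ω * (A10 + 259 / 351 * bw - 110 / 351 * W - 5 / 9 * T) =
    ω * A10 + ω * (259 / 351 * bw) - ω * (110 / 351 * W + 5 / 9 * T) := by ring
  rw [e6] at e1
  have e7 : (ψ - ω) * (259 / 351 * bw) = ψ * (259 / 351 * bw) - ω * (259 / 351 * bw) := by ring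
  rw [e7] at e4
  linarith

/-- The both-leaf acceptance is positive in the region. -/
theorem A2_pos {x u w bu bv bw T k : ℝ} (hx : 0 ≤ x)
    (hu : 0 ≤ u) (hw : 0 ≤ w) (h1 : 0 ≤ bu) (h2 : 0 ≤ bv) (h3 : 0 ≤ bw)
    (h1' : bu ≤ 23 / 280) (h2' : bv ≤ 23 / 280) (h3' : bw ≤ 23 / 280) (hT : 0 ≤ T)
    (hk1 : k ≤ 17 / 351 + 110 / 351 * bv)
    (hreg : 251 / 351 + 1036 / 351 * x + 150 / 351 * (u + w) + 128 / 351 * T ≤ 209 / 200) :
    0 ≤ 209 / 351 + 259 / 351 * (bv + x + w + bw) - k - (368 / 351 + 110 / 351 * bu) * u -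
      (368 / 351 + 110 / 351 * bw) * w - 5 / 9 * T + 259 / 351 * (1 - x - w - bw) := by
  have e1 := mul_le_mul_of_nonneg_right h1' hu
  have e2 := mul_le_mul_of_nonneg_right h3' hw
  nlinarith

/-- Main inequality at `X = 1` with small masses at most `23/280`. -/
theorem core {x u w bu bv bw T κ k A1 H : ℝ} (hx : 0 ≤ x)
    (hu : 0 ≤ u) (hw : 0 ≤ w) (h1 : 0 ≤ bu) (h2 : 0 ≤ bv) (h3 : 0 ≤ bw)
    (h1' : bu ≤ 23 / 280) (h2' : bv ≤ 23 / 280) (h3' : bw ≤ 23 / 280) (hT : 0 ≤ T)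
    (hκ0 : 0 ≤ κ) (hκ : κ ≤ 280 / 931 * (bu + bv + bw)) (hk : 0 ≤ k)
    (hk1 : k ≤ 17 / 351 + 110 / 351 * bv) (hu1 : u ≤ 1) (hw1 : x + w + bw ≤ 1)
    (hA1 : A1 = 209 / 351 + 259 / 351 * (bv + x + w + bw) - k - (368 / 351 + 110 / 351 * bu) * u -
      (368 / 351 + 110 / 351 * bw) * w - 5 / 9 * T)
    (hH : H = 251 / 351 - k + 1036 / 351 * x + 518 / 351 * (bu + bv + bw) +
      (150 / 351 - 110 / 351 * bu) * u + (150 / 351 - 110 / 351 * bw) * w + 128 / 351 * T)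
    (hn : 0 < (1 + κ) * (2019 / 2000) - (1 + 2 * (k - κ)) * H + 21 / 40 * κ) :
    0 ≤ ps (x + w) * (A1 + 259 / 351 * (1 - x - w - bw)) +
        max 0 (om x - ps (x + w)) * max 0 A1 ∧
    (1 + κ) * (2019 / 2000) - (1 + 2 * (k - κ)) * H + 21 / 40 * κ ≤
      (ps (x + w) * (A1 + 259 / 351 * (1 - x - w - bw)) +
        max 0 (om x - ps (x + w)) * max 0 A1) * (2019 / 2000 + H) := by
  have hreg := region hx hu hw hu1 (by linarith) h1 h2 h3 (by linarith) hT hκ0 hκ hk hk1 hH hn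
  have hA2 := A2_pos hx hu hw h1 h2 h3 h1' h2' h3' hT hk1 hreg
  rw [← hA1] at hA2
  have hψ0 : 0 ≤ ps (x + w) := le_max_left _ _
  have hG0 : 0 ≤ ps (x + w) * (A1 + 259 / 351 * (1 - x - w - bw)) +
        max 0 (om x - ps (x + w)) * max 0 A1 :=
    add_nonneg (mul_nonneg hψ0 hA2) (mul_nonneg (le_max_left _ _) (le_max_left _ _))
  refine ⟨hG0, ?_⟩
  set G := ps (x + w) * (A1 + 259 / 351 * (1 - x - w - bw)) +
        max 0 (om x - ps (x + w)) * max 0 A1 with hG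
  have hs : u + w ≤ 772 / 1000 := by linarith
  have hreg' : 251 / 351 + 1036 / 351 * x + 150 / 351 * (u + w) ≤ 209 / 200 := by linarith
  obtain ⟨k0, hk0, hk01, hk0k, hkk0⟩ : ∃ k0, 0 ≤ k0 ∧ k0 ≤ 17 / 351 ∧ k0 ≤ k ∧
      k - k0 ≤ 110 / 351 * bv := by
    refine ⟨min k (17 / 351), le_min hk (by norm_num), min_le_right _ _, min_le_left _ _, ?_⟩
    rcases le_total k (17 / 351) with h | h
    · rw [min_eq_left h]; linarith
    · rw [min_eq_right h]; linarith
  set H0 := 251 / 351 + 1036 / 351 * x + 150 / 351 * (u + w) - k0 with hH0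
  have hH00 : 0 ≤ H0 := by rw [hH0]; linarith
  set L := 23 / 100 * (110 / 351 * (bu * u + bw * w) + 5 / 9 * T) + 28 / 1000 * bw with hL
  have hL0 : 0 ≤ L := by rw [hL]; positivity
  have hHH : H = H0 + (518 / 351 * (bu + bv + bw) - (k - k0) - 110 / 351 * (bu * u + bw * w) +
      128 / 351 * T) := by rw [hH, hH0]; ring
  rcases le_total x (9 / 100) with hx1 | hx1
  · have hg := gain_I hx hx1 hu hw h1 h2 h3 h1' h2' h3' hT hk0 hk01 hk0k hkk0 hw1 hreg hA1 hL
    have hP := base_I hx hx1 hu hw hk0 hk01 hreg'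
    unfold P0 at hP
    set G0 := (23 / 100 * (1 - x / (9 / 100)) * (209 / 351 + 259 / 351 * (x + w) - k0 - 368 / 351 * (u + w)) +
      (3 / 50 - (x + w) / 4) * (259 / 351 * (1 - x - w))) with hG0def
    refine final_step (Gp := max 0 G0) hu hw hs h1 h2 h3 h1' h2' h3' hT hκ0 hκ hk0 hk0k hkk0 hH00 hHH
      hL (le_max_left _ _) ?_ ?_ hn
    · rcases le_total 0 G0 with h | h
      · rw [max_eq_right h]; exact hg
      · rw [max_eq_left h]; linarith
    · have : G0 * (2019 / 2000 + H0) ≤ max 0 G0 * (2019 / 2000 + H0) :=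
        mul_le_mul_of_nonneg_right (le_max_right _ _) (by linarith)
      rw [hH0] at this ⊢
      linarith
  · have hII := base_II hx1 hu hw hk0 hk01 hreg'
    have hA20 : 0 ≤ 4 / 3 - k0 - 368 / 351 * (u + w) := by linarith
    have hom : om x = 0 := by
      unfold om
      rw [max_eq_left]
      · ring
      · rw [sub_nonpos, le_div_iff₀ (by norm_num)]; linarith
    have hψ1 : ps (x + w) ≤ 23 / 100 := by
      unfold ps; apply max_le <;> linarith
    have hψ2 : 3 / 50 - (x + w) / 4 ≤ ps (x + w) := le_max_right _ _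
    refine final_step (Gp := ps (x + w) * (4 / 3 - k0 - 368 / 351 * (u + w))) hu hw hs h1 h2 h3
      h1' h2' h3' hT hκ0 hκ hk0 hk0k hkk0 hH00 hHH hL (mul_nonneg hψ0 hA20) ?_ ?_ hn
    · have e1 : max 0 (om x - ps (x + w)) = 0 := by rw [hom]; apply max_eq_left; linarith
      rw [hG, e1, zero_mul, add_zero, hA1, hL]
      have e2 : 0 ≤ 110 / 351 * (bu * u + bw * w) + 5 / 9 * T := by positivity
      have e3 := mul_le_mul_of_nonneg_right hψ1 e2
      have e4 : 0 ≤ ps (x + w) * (259 / 351 * bv - (k - k0)) := by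
        apply mul_nonneg hψ0; linarith
      nlinarith
    · have e1 : (3 / 50 - (x + w) / 4) * (4 / 3 - k0 - 368 / 351 * (u + w)) *
          (2019 / 2000 + H0) ≤ ps (x + w) * (4 / 3 - k0 - 368 / 351 * (u + w)) *
          (2019 / 2000 + H0) := by
        apply mul_le_mul_of_nonneg_right _ (by linarith)
        exact mul_le_mul_of_nonneg_right hψ2 hA20
      rw [hH0] at e1 ⊢
      linarith

end H76.FKS
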