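import Mathlib
import Pool.Agent.H76.FKS.ThreePoly

/-!
# The numbers of level three: main inequality and orphans
-/

set_option autoImplicit false
set_option linter.unusedVariables false

namespace H76.FKS

/-- The lower bound of `H / X`. -/
noncomputable def H1 (x mu mw bu bv bw T k : ℝ) : ℝ :=
  251 / 351 - k + 1036 / 351 * x + 518 / 351 * (bu + bv + bw) +
      (150 / 351 - 110 / 351 * bu) * mu + (150 / 351 - 110 / 351 * bw) * mw + 128 / 351 * T

theorem cap_facts {b : ℝ} (hb : 0 ≤ b) :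
    0 ≤ min b (23 / 280) ∧ min b (23 / 280) ≤ 23 / 280 ∧ min b (23 / 280) ≤ b :=
  ⟨le_min hb (by norm_num), min_le_right _ _, min_le_left _ _⟩

theorem dom_kappa {X x mu mw bu bv bw T κ K : ℝ} (P : Dom X x mu mw bu bv bw T κ K) :
    κ ≤ 280 / 931 * (min bu (23 / 280) + min bv (23 / 280) + min bw (23 / 280)) := by
  obtain ⟨u0, u1, -⟩ := cap_facts P.bu0
  obtain ⟨v0, v1, -⟩ := cap_facts P.bv0
  obtain ⟨w0, w1, -⟩ := cap_facts P.bw0
  have h := P.κ1
  rw [min_eq', min_eq', min_eq'] at h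
  have := kap_le (s := 7 / 25 * min bu (23 / 280) + 7 / 25 * min bv (23 / 280) +
    7 / 25 * min bw (23 / 280)) (by positivity) (by linarith) h
  linarith

theorem dom_k {X x mu mw bu bv bw T κ K : ℝ} (P : Dom X x mu mw bu bv bw T κ K) :
    0 ≤ K / X ∧ K / X ≤ 17 / 351 + 110 / 351 * min bv (23 / 280) := by
  refine ⟨div_nonneg P.K0 P.X0.le, ?_⟩
  rw [div_le_iff₀ P.X0]
  refine P.K1.trans ?_
  have := Rb_le P.bv0
  have := mul_le_mul_of_nonneg_left this P.X0.le
  linarith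

theorem H1_le {X x mu mw bu bv bw T κ K : ℝ} (P : Dom X x mu mw bu bv bw T κ K) :
    X * H1 x mu mw (min bu (23 / 280)) (min bv (23 / 280)) (min bw (23 / 280)) T (K / X) ≤
      hlow X x mu mw bu bv bw T - K := by
  obtain ⟨u0, u1, u2⟩ := cap_facts P.bu0
  obtain ⟨v0, v1, v2⟩ := cap_facts P.bv0
  obtain ⟨w0, w1, w2⟩ := cap_facts P.bw0
  have hX1 : X ≤ 1 := by linarith [P.Xv, P.bv0]
  have hKX : X * (K / X) = K := by field_simp [P.X0.ne']
  unfold H1 hlow
  have hRu := Rb_le P.bu0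
  have hRw := Rb_le P.bw0
  set bu' := min bu (23 / 280)
  set bv' := min bv (23 / 280)
  set bw' := min bw (23 / 280)
  have e1 : X * (1036 / 351 * x) ≤ 1036 / 351 * x := by
    have := P.x0
    have : 0 ≤ (1 - X) * (1036 / 351 * x) := mul_nonneg (by linarith) (by positivity)
    linarith
  have e2 : X * (518 / 351 * (bu' + bv' + bw')) ≤ 518 / 351 * (bu + bv + bw) := by
    have : 0 ≤ (1 - X) * (518 / 351 * (bu' + bv' + bw')) := mul_nonneg (by linarith) (by positivity)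
    linarith
  have e3 : X * ((150 / 351 - 110 / 351 * bu') * mu) ≤ (518 / 351 - Rb bu) * mu := by
    have h1 : 0 ≤ (1 - X) * ((150 / 351 - 110 / 351 * bu') * mu) :=
      mul_nonneg (by linarith) (mul_nonneg (by linarith) P.mu0)
    have h2 : (150 / 351 - 110 / 351 * bu') * mu ≤ (518 / 351 - Rb bu) * mu :=
      mul_le_mul_of_nonneg_right (by linarith) P.mu0
    linarith
  have e4 : X * ((150 / 351 - 110 / 351 * bw') * mw) ≤ (518 / 351 - Rb bw) * mw := by
    have h1 : 0 ≤ (1 - X) * ((150 / 351 - 110 / 351 * bw') * mw) :=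
      mul_nonneg (by linarith) (mul_nonneg (by linarith) P.mw0)
    have h2 : (150 / 351 - 110 / 351 * bw') * mw ≤ (518 / 351 - Rb bw) * mw :=
      mul_le_mul_of_nonneg_right (by linarith) P.mw0
    linarith
  have e5 : X * (128 / 351 * T) ≤ 128 / 351 * T := by
    have := P.T0
    have : 0 ≤ (1 - X) * (128 / 351 * T) := mul_nonneg (by linarith) (by positivity)
    linarith
  have e6 : X * (251 / 351 - K / X + 1036 / 351 * x + 518 / 351 * (bu' + bv' + bw') +
      (150 / 351 - 110 / 351 * bu') * mu + (150 / 351 - 110 / 351 * bw') * mw + 128 / 351 * T) =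
      X * (251 / 351) - X * (K / X) + X * (1036 / 351 * x) + X * (518 / 351 * (bu' + bv' + bw')) +
      X * ((150 / 351 - 110 / 351 * bu') * mu) + X * ((150 / 351 - 110 / 351 * bw') * mw) +
      X * (128 / 351 * T) := by ring
  rw [e6, hKX]
  linarith

theorem H1_pos {X x mu mw bu bv bw T κ K : ℝ} (P : Dom X x mu mw bu bv bw T κ K) :
    3 / 5 ≤ H1 x mu mw (min bu (23 / 280)) (min bv (23 / 280)) (min bw (23 / 280)) T (K / X) ∧
    251 / 351 - K / X + 1036 / 351 * x + 518 / 351 * (min bu (23 / 280) + min bv (23 / 280) +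
      min bw (23 / 280)) ≤
      H1 x mu mw (min bu (23 / 280)) (min bv (23 / 280)) (min bw (23 / 280)) T (K / X) := by
  obtain ⟨u0, u1, u2⟩ := cap_facts P.bu0
  obtain ⟨v0, v1, v2⟩ := cap_facts P.bv0
  obtain ⟨w0, w1, w2⟩ := cap_facts P.bw0
  obtain ⟨k0, k1⟩ := dom_k P
  unfold H1
  set bu' := min bu (23 / 280)
  set bv' := min bv (23 / 280)
  set bw' := min bw (23 / 280)
  have e3 : 0 ≤ (150 / 351 - 110 / 351 * bu') * mu := mul_nonneg (by linarith) P.mu0
  have e4 : 0 ≤ (150 / 351 - 110 / 351 * bw') * mw := mul_nonneg (by linarith) P.mw0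
  have := P.T0
  have := P.x0
  constructor <;> linarith

/-- `Hh` is positive. -/
theorem H_pos {X x mu mw bu bv bw T κ K : ℝ} (P : Dom X x mu mw bu bv bw T κ K) :
    0 < hlow X x mu mw bu bv bw T - K := by
  refine lt_of_lt_of_le ?_ (H1_le P)
  exact mul_pos P.X0 (by linarith [(H1_pos P).1])

theorem num_le {X x mu mw bu bv bw T κ K H : ℝ} (P : Dom X x mu mw bu bv bw T κ K) {h : ℝ}
    (hH : X * h ≤ H) :
    num X κ K H ≤ X * ((1 + κ) * (2019 / 2000) - (1 + 2 * (K / X - κ)) * h + 21 / 40 * κ) := by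
  have hκ := dom_kappa P
  obtain ⟨u0, u1, u2⟩ := cap_facts P.bu0
  obtain ⟨v0, v1, v2⟩ := cap_facts P.bv0
  obtain ⟨w0, w1, w2⟩ := cap_facts P.bw0
  obtain ⟨k0, k1⟩ := dom_k P
  have h4 : 0 ≤ 1 + 2 * (K / X - κ) := by linarith
  have h5 := mul_le_mul_of_nonneg_left hH h4
  unfold num av
  nlinarith

/-- **Main inequality.** -/
theorem MI {X x mu mw bu bv bw T κ K H A1 A2 : ℝ} (P : Dom X x mu mw bu bv bw T κ K)
    (hH : hlow X x mu mw bu bv bw T - K ≤ H) (hA1 : alow X x mu mw bu bv bw T K ≤ A1)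
    (hA2 : alow2 X mu mw bu bv bw T K ≤ A2) (hn : 0 < num X κ K H) :
    num X κ K H ≤ (ps (x + mw) * A2 + max 0 (om x - ps (x + mw)) * max 0 A1) * (av X + H) := by
  have hκ := dom_kappa P
  have hH1 := (H1_le P).trans hH
  obtain ⟨u0, u1, u2⟩ := cap_facts P.bu0
  obtain ⟨v0, v1, v2⟩ := cap_facts P.bv0
  obtain ⟨w0, w1, w2⟩ := cap_facts P.bw0
  obtain ⟨k0, k1⟩ := dom_k P
  have hHp := (H1_pos P).1
  have hnum := num_le P hH1
  have hX1 : X ≤ 1 := by linarith [P.Xv, P.bv0]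
  have hKX : X * (K / X) = K := by field_simp [P.X0.ne']
  have hRu := Rb_le P.bu0
  have hRw := Rb_le P.bw0
  set bu' := min bu (23 / 280)
  set bv' := min bv (23 / 280)
  set bw' := min bw (23 / 280)
  set k := K / X with hk
  set n1 := (1 + κ) * (2019 / 2000) - (1 + 2 * (k - κ)) * H1 x mu mw bu' bv' bw' T k +
    21 / 40 * κ with hn1
  have hn1pos : 0 < n1 := by
    have : 0 < X * n1 := hn.trans_le hnum
    exact (mul_pos_iff_of_pos_left P.X0).1 this
  obtain ⟨hG0, hG1⟩ := core P.x0 P.mu0 P.mw0 u0 v0 w0 u1 v1 w1 P.T0 P.κ0 hκ k0 k1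
    (by linarith [P.Xu, P.x0, P.bu0]) (by linarith [P.Xw]) rfl rfl hn1pos
  set A11 := 209 / 351 + 259 / 351 * (bv' + x + mw + bw') - k - (368 / 351 + 110 / 351 * bu') * mu -
      (368 / 351 + 110 / 351 * bw') * mw - 5 / 9 * T with hA11
  have hkX : K ≤ k := by
    have : 0 ≤ (1 - X) * k := mul_nonneg (by linarith) k0
    linarith
  have e1 : Rb bu * mu ≤ (368 / 351 + 110 / 351 * bu') * mu := mul_le_mul_of_nonneg_right hRu P.mu0
  have e2 : Rb bw * mw ≤ (368 / 351 + 110 / 351 * bw') * mw := mul_le_mul_of_nonneg_right hRw P.mw0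
  have hA1' : A11 ≤ A1 := by
    refine le_trans ?_ hA1
    unfold alow
    rw [hA11]
    linarith
  have hA2' : A11 + 259 / 351 * (1 - x - mw - bw') ≤ A2 := by
    refine le_trans ?_ hA2
    unfold alow2
    rw [hA11]
    linarith
  have hG : ps (x + mw) * (A11 + 259 / 351 * (1 - x - mw - bw')) +
      max 0 (om x - ps (x + mw)) * max 0 A11 ≤
      ps (x + mw) * A2 + max 0 (om x - ps (x + mw)) * max 0 A1 := by
    apply add_le_add
    · exact mul_le_mul_of_nonneg_left hA2' (le_max_left _ _)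
    · exact mul_le_mul_of_nonneg_left (max_le_max le_rfl hA1') (le_max_left _ _)
  have hS : X * (2019 / 2000 + H1 x mu mw bu' bv' bw' T k) ≤ av X + H := by
    unfold av
    linarith
  calc num X κ K H ≤ X * n1 := hnum
    _ ≤ X * ((ps (x + mw) * (A11 + 259 / 351 * (1 - x - mw - bw')) +
      max 0 (om x - ps (x + mw)) * max 0 A11) * (2019 / 2000 + H1 x mu mw bu' bv' bw' T k)) :=
        mul_le_mul_of_nonneg_left hG1 P.X0.le
    _ = (ps (x + mw) * (A11 + 259 / 351 * (1 - x - mw - bw')) +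
      max 0 (om x - ps (x + mw)) * max 0 A11) *
        (X * (2019 / 2000 + H1 x mu mw bu' bv' bw' T k)) := by ring
    _ ≤ _ := mul_le_mul hG hS (mul_nonneg P.X0.le (by linarith)) (hG0.trans hG)

/-- The thinning is at most `7/40`. -/
theorem z_le {X x mu mw bu bv bw T κ K H : ℝ} (P : Dom X x mu mw bu bv bw T κ K)
    (hH : hlow X x mu mw bu bv bw T - K ≤ H) :
    num X κ K H ≤ 7 / 40 * (av X + H) := by
  have hκ := dom_kappa P
  have hH1 := (H1_le P).trans hH
  obtain ⟨u0, u1, u2⟩ := cap_facts P.bu0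
  obtain ⟨v0, v1, v2⟩ := cap_facts P.bv0
  obtain ⟨w0, w1, w2⟩ := cap_facts P.bw0
  obtain ⟨k0, k1⟩ := dom_k P
  obtain ⟨hHp, hHp2⟩ := H1_pos P
  have hnum := num_le P hH1
  set bu' := min bu (23 / 280)
  set bv' := min bv (23 / 280)
  set bw' := min bw (23 / 280)
  set k := K / X with hk
  set h := H1 x mu mw bu' bv' bw' T k with hh
  set B := bu' + bv' + bw' with hB
  have hB0 : 0 ≤ B := by positivity
  have hB1 : B ≤ 69 / 280 := by rw [hB]; linarith
  have key : (1 + κ) * (2019 / 2000) - (1 + 2 * (k - κ)) * h + 21 / 40 * κ ≤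
      7 / 40 * (2019 / 2000 + h) := by
    have h0 : 251 / 351 - k + 518 / 351 * B ≤ h := by
      have := P.x0
      linarith
    have h1 : 0 ≤ 47 / 40 + 2 * (k - κ) := by linarith
    have h2 := mul_le_mul_of_nonneg_left h0 h1
    have hκ0 := P.κ0
    have hk2 : k ≤ 17 / 351 + 110 / 351 * (23 / 280) := by linarith
    nlinarith [mul_nonneg k0 hB0, mul_nonneg hκ0 hB0, mul_nonneg k0 hκ0, mul_nonneg k0 (sub_nonneg.2 hk2), mul_nonneg (sub_nonneg.2 hκ) hB0, mul_nonneg hB0 (sub_nonneg.2 hB1)]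
  have h3 := mul_le_mul_of_nonneg_left key P.X0.le
  unfold av
  linarith

theorem orph_quad {t m r w κ c d p0 δ a : ℝ} (ht : 0 ≤ t) (hr : 0 < r + w)
    (hp : p0 ≤ m * (r + w)) (hδ : 0 ≤ δ)
    (hd : (1 + κ) * (a + w) - m * (r + w) ≤ d) (hdisc : (d - δ * c) ^ 2 ≤ 4 * δ * (p0 * c))
    (hδ0 : 0 < δ) (hc : 0 ≤ c) :
    (1 + κ) * t * (a + w) ≤ (t * m + δ) * (r + w + c * t) := by
  have h1 : (r + w) * (t * ((1 + κ) * (a + w) - m * (r + w))) ≤ (r + w) * (t * d) :=
    mul_le_mul_of_nonneg_left (mul_le_mul_of_nonneg_left hd ht) hr.le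
  have h2 : p0 * (c * t ^ 2) ≤ m * (r + w) * (c * t ^ 2) :=
    mul_le_mul_of_nonneg_right hp (by positivity)
  have h3 : 0 ≤ 4 * δ * (δ * (r + w) ^ 2 - (d - δ * c) * ((r + w) * t) + p0 * c * t ^ 2) := by
    nlinarith [sq_nonneg (2 * δ * (r + w) - (d - δ * c) * t), mul_nonneg (sub_nonneg.2 hdisc) (sq_nonneg t)]
  have h4 : 0 ≤ δ * (r + w) ^ 2 - (d - δ * c) * ((r + w) * t) + p0 * c * t ^ 2 := by
    by_contra h
    push Not at h
    nlinarith
  have h5 : 0 ≤ (r + w) * ((t * m + δ) * (r + w + c * t) - (1 + κ) * t * (a + w)) := by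
    nlinarith
  have h6 : 0 ≤ (t * m + δ) * (r + w + c * t) - (1 + κ) * t * (a + w) := by
    by_contra h
    push Not at h
    have := mul_pos_of_neg_of_neg h (neg_lt_zero.2 hr)
    linarith
  linarith

/-- The orphan inequality. -/
theorem orphan {X x mu mw bu bv bw T κ K H : ℝ} (P : Dom X x mu mw bu bv bw T κ K)
    (hH : hlow X x mu mw bu bv bw T - K ≤ H) :
    (1 + κ) * x * av X ≤ (x + 19 / 2000 * X + 2 * x * (K / X - κ)) * H ∧
    (1 + κ) * x * (av X + 7 / 40 * X) ≤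
      (x + 19 / 2000 * X + 2 * x * (K / X - κ)) * (H + 7 / 40 * X) := by
  have hκ := dom_kappa P
  obtain ⟨u0, u1, u2⟩ := cap_facts P.bu0
  obtain ⟨v0, v1, v2⟩ := cap_facts P.bv0
  obtain ⟨w0, w1, w2⟩ := cap_facts P.bw0
  obtain ⟨k0, k1⟩ := dom_k P
  have hX1 : X ≤ 1 := by linarith [P.Xv, P.bv0]
  have hKX : X * (K / X) = K := by field_simp [P.X0.ne']
  have hRu := Rb_le P.bu0
  have hRw := Rb_le P.bw0
  set bu' := min bu (23 / 280)
  set bv' := min bv (23 / 280)
  set bw' := min bw (23 / 280)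
  set k := K / X with hk
  set B := bu' + bv' + bw' with hB
  have hB0 : 0 ≤ B := by positivity
  have hB1 : B ≤ 69 / 280 := by rw [hB]; linarith
  have hκ0 := P.κ0
  have hκ1 : κ ≤ 69 / 931 := by linarith
  have hk2 : k ≤ 17 / 351 + 110 / 351 * (23 / 280) := by linarith
  -- pass to t = x / X
  obtain ⟨t, ht0, ht1, hxt⟩ : ∃ t, 0 ≤ t ∧ t ≤ 1 ∧ x = t * X :=
    ⟨x / X, div_nonneg P.x0 P.X0.le, (div_le_one P.X0).2 P.xX, by field_simp [P.X0.ne']⟩
  have hq : 0 ≤ t * (1 + 2 * (k - κ)) + 19 / 2000 := by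
    have : 0 ≤ t * (1 + 2 * (k - κ)) := mul_nonneg ht0 (by linarith)
    linarith
  -- H ≥ X * g
  have hHg : X * (251 / 351 - k + 518 / 351 * B + 1036 / 351 * t) ≤ H := by
    refine le_trans ?_ hH
    unfold hlow
    have e2 : X * (518 / 351 * B) ≤ 518 / 351 * (bu + bv + bw) := by
      have : 0 ≤ (1 - X) * (518 / 351 * B) := mul_nonneg (by linarith) (by positivity)
      linarith
    have e3 : 0 ≤ (518 / 351 - Rb bu) * mu := mul_nonneg (by linarith) P.mu0
    have e4 : 0 ≤ (518 / 351 - Rb bw) * mw := mul_nonneg (by linarith) P.mw0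
    have := P.T0
    have e6 : X * (251 / 351 - k + 518 / 351 * B + 1036 / 351 * t) =
      X * (251 / 351) - X * k + X * (518 / 351 * B) + 1036 / 351 * (t * X) := by ring
    rw [e6, hKX, ← hxt]
    linarith
  set m := 1 + 2 * (k - κ) with hm
  set r := 251 / 351 - k + 518 / 351 * B with hr
  have hm0 : 0 < m := by rw [hm]; linarith
  have hr0 : 0 < r := by rw [hr]; linarith
  have hP : 251 / 351 + κ * (2019 / 2000 + 21 / 40) ≤ m * r := by
    rw [hm, hr]
    nlinarith [mul_nonneg k0 hB0, mul_nonneg hκ0 hB0, mul_nonneg k0 hκ0, mul_nonneg k0 (sub_nonneg.2 hk2), mul_nonneg hκ0 (sub_nonneg.2 hB1)]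
  have q1 : (1 + κ) * t * (2019 / 2000 + 0) ≤ (t * m + 19 / 2000) * (r + 0 + 1036 / 351 * t) := by
    refine orph_quad (p0 := 251 / 351) (d := 2019 / 2000 - 251 / 351) ht0 (by linarith) ?_ (by norm_num) ?_
      (by norm_num) (by norm_num) (by norm_num)
    · rw [add_zero]; nlinarith
    · rw [add_zero]; linarith
  have q2 : (1 + κ) * t * (2019 / 2000 + 7 / 40) ≤
      (t * m + 19 / 2000) * (r + 7 / 40 + 1036 / 351 * t) := by
    refine orph_quad (p0 := 251 / 351) (d := 2019 / 2000 - 251 / 351) ht0 (by linarith) ?_ (by norm_num) ?_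
      (by norm_num) (by norm_num) (by norm_num)
    · nlinarith
    · have : m * (r + 7 / 40) = m * r + (1 + 2 * (k - κ)) * (7 / 40) := by rw [hm]; ring
      rw [this]
      linarith
  have hX0 := P.X0
  have hfac : x + 19 / 2000 * X + 2 * x * (k - κ) = X * (t * m + 19 / 2000) := by
    rw [hxt, hm]; ring
  rw [hfac]
  constructor
  · have h1 : X * (t * m + 19 / 2000) * (X * (r + 1036 / 351 * t)) ≤
        X * (t * m + 19 / 2000) * H := mul_le_mul_of_nonneg_left hHg (mul_nonneg hX0.le hq)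
    have h2 := mul_le_mul_of_nonneg_left q1 (mul_nonneg hX0.le hX0.le)
    unfold av
    rw [hxt]
    nlinarith
  · have h1 : X * (t * m + 19 / 2000) * (X * (r + 1036 / 351 * t) + 7 / 40 * X) ≤
        X * (t * m + 19 / 2000) * (H + 7 / 40 * X) :=
      mul_le_mul_of_nonneg_left (by linarith) (mul_nonneg hX0.le hq)
    have h2 := mul_le_mul_of_nonneg_left q2 (mul_nonneg hX0.le hX0.le)
    unfold av
    rw [hxt]
    nlinarith

end H76.FKS
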